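import Pool.Agent.Zk98.LE
import Pool.Agent.Zk8.LR.B

set_option autoImplicit false

/-! Sets with a saving of every power of the logarithm and the ranks of apparition of primes. -/

namespace Pool.Agent.Zk52.LRK

open Finset Classical
open Pool.Agent.N375.AV (LogThin logThin_mono absorb)
open Pool.Agent.Zk98.LD (Keeps pre Divs divs_spread keeps_comp)
open Pool.Agent.Zk8.LR (U Nondeg IsRank natAbs_U_le rank_dvd rank_pos_dvd)
open Pool.Agent.Zk73.OR (card_pf log_small)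

/-- few primes divide a term of small index of the Lucas sequences with parameters in a finite set -/
lemma small_ranks' (S : Finset (ℤ × ℤ)) {A K : ℕ} (hS : ∀ x ∈ S, |x.1| ≤ A ∧ |x.2| ≤ A ∧ Nondeg x.1 x.2)
    (F : Finset ℕ) (hF : ∀ p ∈ F, p.Prime ∧ ∃ x ∈ S, ∃ k : ℕ, 1 ≤ k ∧ k ≤ K ∧ (p : ℤ) ∣ U x.1 x.2 k) :
    F.card ≤ S.card * (K * (K * (Nat.log 2 (2 * A + 1) + 1))) := by
  have hsub : F ⊆ S.biUnion (fun x => (Icc 1 K).biUnion (fun k => (U x.1 x.2 k).natAbs.primeFactors)) := by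
    intro p hp
    obtain ⟨h1, x, h2, k, h5, h6, h7⟩ := hF p hp
    rw [mem_biUnion]
    refine ⟨x, h2, ?_⟩
    rw [mem_biUnion]
    refine ⟨k, by rw [mem_Icc]; exact ⟨h5, h6⟩, ?_⟩
    rw [Nat.mem_primeFactors]
    refine ⟨h1, Int.natCast_dvd.1 h7, ?_⟩
    rw [Int.natAbs_ne_zero]
    exact (hS x h2).2.2 k h5
  refine (card_le_card hsub).trans (card_biUnion_le.trans ?_)
  have h1 : ∀ x ∈ S, ((Icc 1 K).biUnion (fun k => (U x.1 x.2 k).natAbs.primeFactors)).card ≤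
        K * (K * (Nat.log 2 (2 * A + 1) + 1)) := by
    intro x hx
    obtain ⟨hx1, hx2, hx3⟩ := hS x hx
    refine card_biUnion_le.trans ?_
    have h2 : ∀ k ∈ Icc 1 K, ((U x.1 x.2 k).natAbs.primeFactors).card ≤ K * (Nat.log 2 (2 * A + 1) + 1) := by
      intro k hk
      rw [mem_Icc] at hk
      refine (card_pf (Int.natAbs_ne_zero.2 (hx3 k hk.1))).trans ?_
      have hA : 2 * A + 1 < 2 ^ (Nat.log 2 (2 * A + 1) + 1) := Nat.lt_pow_succ_log_self (by norm_num) _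
      have haA : ∀ a : ℤ, |a| ≤ A → a.natAbs ≤ A := by
        intro a ha
        have := abs_le.1 ha
        omega
      have h3 : (U x.1 x.2 k).natAbs ≤ 2 ^ (k * (Nat.log 2 (2 * A + 1) + 1)) := by
        refine (natAbs_U_le _ _ _).trans ?_
        have e1 : x.1.natAbs + x.2.natAbs + 1 ≤ 2 ^ (Nat.log 2 (2 * A + 1) + 1) := by
          have := haA x.1 hx1
          have := haA x.2 hx2
          omega
        have e2 := Nat.pow_le_pow_left e1 k
        rwa [← pow_mul, mul_comm _ k] at e2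
      have h4 := Nat.log_mono_right (b := 2) h3
      rw [Nat.log_pow (by norm_num)] at h4
      exact h4.trans (Nat.mul_le_mul_right _ hk.2)
    refine (sum_le_sum h2).trans ?_
    rw [sum_const, Nat.card_Icc, Nat.add_sub_cancel, smul_eq_mul]
  refine (sum_le_sum h1).trans ?_
  rw [sum_const, smul_eq_mul]

lemma logThin_union {E E' : Set ℕ} (hE : LogThin E) (hE' : LogThin E') : LogThin (E ∪ E') := by
  obtain ⟨T, hT⟩ : ∃ T : Set ℕ, T = E ∪ E' := ⟨_, rfl⟩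
  rw [← hT]
  intro A
  obtain ⟨K₁, h1⟩ := hE A
  obtain ⟨K₂, h2⟩ := hE' A
  refine ⟨K₁ + K₂, fun X hX => ?_⟩
  have hsub : (range (X + 1)).filter (fun v => v ∈ T) ⊆
      (range (X + 1)).filter (fun v => v ∈ E) ∪ (range (X + 1)).filter (fun v => v ∈ E') := by
    intro v hv
    rw [mem_filter, hT] at hv
    obtain ⟨hv1, hw | hw⟩ := hv
    · exact mem_union_left _ (mem_filter.2 ⟨hv1, hw⟩)
    · exact mem_union_right _ (mem_filter.2 ⟨hv1, hw⟩)
  have h3 := (card_le_card hsub).trans (card_union_le _ _)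
  have h4 : (((range (X + 1)).filter (fun v => v ∈ T)).card : ℝ) ≤
      ((range (X + 1)).filter (fun v => v ∈ E)).card +
        ((range (X + 1)).filter (fun v => v ∈ E')).card := by exact_mod_cast h3
  calc _ ≤ _ := h4
    _ ≤ K₁ * X / (1 + Real.log X) ^ A + K₂ * X / (1 + Real.log X) ^ A := add_le_add (h1 X hX) (h2 X hX)
    _ = _ := by ring

lemma sqrt_le_lin {δ t : ℝ} (hδ : 0 < δ) (ht : 0 ≤ t) : t ^ (1 / 2 : ℝ) ≤ δ * t + 1 / (4 * δ) := by
  rw [← Real.sqrt_eq_rpow]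
  have h1 := Real.sq_sqrt ht
  have h2 : 0 ≤ (2 * δ * √t - 1) ^ 2 := sq_nonneg _
  have h3 : √t * (4 * δ) ≤ (δ * t + 1 / (4 * δ)) * (4 * δ) := by
    have e : (δ * t + 1 / (4 * δ)) * (4 * δ) = 4 * δ ^ 2 * t + 1 := by
      field_simp
    rw [e]
    nlinarith
  exact le_of_mul_le_mul_right h3 (by positivity)

/-- the general form -/
theorem keeps_of {R : ℕ → Set ℕ} {κ C₀ : ℝ} (hκ : κ < 1) (hC₀ : 0 ≤ C₀)
    (hR : ∀ p, ∀ w ∈ R p, p.Prime ∧ 1 ≤ w ∧ (w ∣ p - 1 ∨ w ∣ p ∨ w ∣ p + 1))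
    (hpair : ∀ X : ℕ, 1 ≤ X → ∃ S : Finset (ℤ × ℤ), (S.card : ℝ) ≤ C₀ * (X : ℝ) ^ κ ∧
      (∀ x ∈ S, |x.1| ≤ (X : ℤ) ∧ |x.2| ≤ (X : ℤ) ∧ Nondeg x.1 x.2) ∧
      ∀ p ≤ X, ∀ w ∈ R p, ∃ x ∈ S, (p : ℤ) ∣ U x.1 x.2 w) : Keeps R := by
  intro W hW
  have h1 := (divs_spread (c := 1 / 2) (by norm_num) 1).keeps W hW
  obtain ⟨Sm, hSm⟩ : ∃ Sm : Set ℕ, Sm = {p | ∃ w ∈ R p, (w : ℝ) < Real.exp (Real.log p ^ (1 / 2 : ℝ))} := ⟨_, rfl⟩
  have h2 : LogThin Sm := by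
    intro A
    obtain ⟨δ, hδ⟩ : ∃ δ : ℝ, δ = (1 - κ) / 4 := ⟨_, rfl⟩
    have hδ0 : 0 < δ := by rw [hδ]; linarith
    obtain ⟨CL, hCL0, hCL⟩ := log_small hδ0
    obtain ⟨K₄, hK₄, habs⟩ := absorb A (b := 1) (c := δ) one_pos hδ0
    obtain ⟨C₃, hC₃⟩ : ∃ C₃ : ℝ, C₃ = Real.exp (1 / (4 * δ)) := ⟨_, rfl⟩
    have hC₃0 : 0 < C₃ := by rw [hC₃]; exact Real.exp_pos _
    obtain ⟨C₄, hC₄⟩ : ∃ C₄ : ℝ, C₄ = C₀ * (C₃ * (C₃ * (CL * 3 ^ δ))) := ⟨_, rfl⟩
    have hC₄0 : 0 ≤ C₄ := by rw [hC₄]; positivity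
    refine ⟨C₄ * K₄, fun X hX => ?_⟩
    have hX1 : (1 : ℝ) ≤ X := by exact_mod_cast hX
    have hX0 : (0 : ℝ) < X := by linarith
    have hL0 : 0 ≤ Real.log X := Real.log_nonneg hX1
    obtain ⟨S, hS1, hS2, hS3⟩ := hpair X hX
    obtain ⟨K, hK⟩ : ∃ K : ℕ, K = ⌊C₃ * (X : ℝ) ^ δ⌋₊ := ⟨_, rfl⟩
    have hKle : (K : ℝ) ≤ C₃ * (X : ℝ) ^ δ := by rw [hK]; exact Nat.floor_le (by positivity)
    have h3 := small_ranks' S (A := X) (K := K) hS2 ((range (X + 1)).filter (fun v => v ∈ Sm)) (by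
      intro p hp
      rw [mem_filter, mem_range, hSm] at hp
      obtain ⟨hp1, w, hw, hwlt⟩ := hp
      obtain ⟨hpp, hw1, -⟩ := hR p w hw
      obtain ⟨x, hx, hdx⟩ := hS3 p (by omega) w hw
      refine ⟨hpp, x, hx, w, hw1, ?_, hdx⟩
      rw [hK]
      apply Nat.le_floor
      have hp0 : (0 : ℝ) < p := by exact_mod_cast hpp.pos
      have hp1' : (1 : ℝ) ≤ p := by exact_mod_cast hpp.one_lt.le
      have hpX : (p : ℝ) ≤ X := by exact_mod_cast (by omega : p ≤ X)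
      have h4 := sqrt_le_lin hδ0 (Real.log_nonneg hp1')
      have h5 : Real.exp (Real.log p ^ (1 / 2 : ℝ)) ≤ C₃ * (p : ℝ) ^ δ := by
        calc Real.exp (Real.log p ^ (1 / 2 : ℝ)) ≤ Real.exp (δ * Real.log p + 1 / (4 * δ)) := Real.exp_le_exp.2 h4
          _ = C₃ * (p : ℝ) ^ δ := by
            rw [Real.exp_add, hC₃, Real.rpow_def_of_pos hp0, mul_comm δ]
            ring
      calc (w : ℝ) ≤ C₃ * (p : ℝ) ^ δ := hwlt.le.trans h5
        _ ≤ C₃ * (X : ℝ) ^ δ := by gcongr)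
    have h4 : (((range (X + 1)).filter (fun v => v ∈ Sm)).card : ℝ) ≤
        S.card * (K * (K * ((Nat.log 2 (2 * X + 1) : ℝ) + 1))) := by exact_mod_cast h3
    have h5 : ((Nat.log 2 (2 * X + 1) : ℝ) + 1) ≤ CL * 3 ^ δ * (X : ℝ) ^ δ := by
      refine (hCL (2 * X + 1) (by omega)).trans ?_
      rw [mul_assoc, ← Real.mul_rpow (by norm_num) hX0.le]
      apply mul_le_mul_of_nonneg_left _ hCL0
      apply Real.rpow_le_rpow (Nat.cast_nonneg _) _ hδ0.le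
      push_cast
      linarith
    have h6 : (((range (X + 1)).filter (fun v => v ∈ Sm)).card : ℝ) ≤ C₄ * (X : ℝ) ^ (1 - δ) := by
      have e1 : (X : ℝ) ^ (1 - δ) = (X : ℝ) ^ κ * ((X : ℝ) ^ δ * ((X : ℝ) ^ δ * (X : ℝ) ^ δ)) := by
        rw [← Real.rpow_add hX0, ← Real.rpow_add hX0, ← Real.rpow_add hX0]
        congr 1
        rw [hδ]
        ring
      refine h4.trans ?_
      calc (S.card : ℝ) * (K * (K * ((Nat.log 2 (2 * X + 1) : ℝ) + 1)))
          ≤ (C₀ * (X : ℝ) ^ κ) * ((C₃ * (X : ℝ) ^ δ) * ((C₃ * (X : ℝ) ^ δ) * (CL * 3 ^ δ * (X : ℝ) ^ δ))) := by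
            gcongr
        _ = C₄ * (X : ℝ) ^ (1 - δ) := by
            rw [e1, hC₄]
            ring
    refine h6.trans ?_
    have hP : (0 : ℝ) < (1 + Real.log X) ^ A := by positivity
    rw [le_div_iff₀ hP]
    have h7 := habs _ hL0
    rw [Real.rpow_one] at h7
    have h8 : Real.exp (δ * Real.log X) = (X : ℝ) ^ δ := by
      rw [Real.rpow_def_of_pos hX0, mul_comm]
    rw [h8] at h7
    calc C₄ * (X : ℝ) ^ (1 - δ) * (1 + Real.log X) ^ A ≤ C₄ * (X : ℝ) ^ (1 - δ) * (K₄ * (X : ℝ) ^ δ) := by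
          gcongr
      _ = C₄ * K₄ * ((X : ℝ) ^ (1 - δ) * (X : ℝ) ^ δ) := by ring
      _ = C₄ * K₄ * X := by
          rw [← Real.rpow_add hX0]
          norm_num
  refine logThin_mono ?_ (logThin_union h1 h2)
  rintro p ⟨w, hw, hwW⟩
  by_cases hc : (w : ℝ) < Real.exp (Real.log p ^ (1 / 2 : ℝ))
  · right
    rw [hSm]
    exact ⟨w, hw, hc⟩
  · left
    obtain ⟨hp, hw1, hd⟩ := hR p w hw
    have hp1 : (1 : ℝ) ≤ p := by exact_mod_cast hp.one_lt.le
    have hl := Real.log_nonneg hp1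
    have hge := not_lt.1 hc
    have h2p := hp.two_le
    refine ⟨w, ?_, hwW⟩
    rcases hd with hd | hd | hd
    · refine ⟨p - 1, by omega, ?_, hge, hd⟩
      rw [Nat.cast_sub (by omega), pow_one]
      have e : ((p : ℝ) - (1 : ℕ)) - p = -1 := by push_cast; ring
      rw [e, abs_neg, abs_one]
      linarith
    · refine ⟨p, by omega, ?_, hge, hd⟩
      rw [sub_self, abs_zero, pow_one]
      linarith
    · refine ⟨p + 1, by omega, ?_, hge, hd⟩
      have e : (((p + 1 : ℕ) : ℝ)) - p = 1 := by push_cast; ring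
      rw [e, abs_one, pow_one]
      linarith

/-- if `p` is a prime, the ranks of apparition of `p` in all nondegenerate Lucas sequences with parameters
`|P|, |Q| ≤ p ^ c` -/
def Ranks (c : ℝ) (p : ℕ) : Set ℕ :=
  {w | p.Prime ∧ ∃ P Q : ℤ, (|P| : ℝ) ≤ (p : ℝ) ^ c ∧ (|Q| : ℝ) ≤ (p : ℝ) ^ c ∧ Nondeg P Q ∧ IsRank p P Q w}

/-- if `p` is a prime, the ranks of apparition of `p` in all nondegenerate Lucas sequences with parameters
`|P| ≤ p ^ c`, `Q = 1` or `Q = -1` -/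
def UnitRanks (c : ℝ) (p : ℕ) : Set ℕ :=
  {w | p.Prime ∧ ∃ P Q : ℤ, (|P| : ℝ) ≤ (p : ℝ) ^ c ∧ (Q = 1 ∨ Q = -1) ∧ Nondeg P Q ∧ IsRank p P Q w}

theorem keeps_ranks {c : ℝ} (hc0 : 0 ≤ c) (hc : c < 1 / 2) : Keeps (Ranks c) := by
  refine keeps_of (κ := 2 * c) (C₀ := 9) (by linarith) (by norm_num) ?_ ?_
  · rintro p w ⟨hp, P, Q, hP, hQ, hnd, hw⟩
    exact ⟨hp, hw.1, rank_pos_dvd hp (by linarith) hP hQ hnd hw⟩
  · intro X hX
    have hX1 : (1 : ℝ) ≤ X := by exact_mod_cast hX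
    have hX0 : (0 : ℝ) < X := by linarith
    obtain ⟨A, hA⟩ : ∃ A : ℕ, A = ⌊(X : ℝ) ^ c⌋₊ := ⟨_, rfl⟩
    have hXc : 1 ≤ (X : ℝ) ^ c := Real.one_le_rpow hX1 hc0
    have hAle : (A : ℝ) ≤ (X : ℝ) ^ c := by rw [hA]; exact Nat.floor_le (by linarith)
    have hAX : A ≤ X := by
      have h1 : (A : ℝ) ≤ X := hAle.trans (by
        calc (X : ℝ) ^ c ≤ (X : ℝ) ^ (1 : ℝ) := Real.rpow_le_rpow_of_exponent_le hX1 (by linarith)
          _ = X := Real.rpow_one _)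
      exact_mod_cast h1
    refine ⟨((Icc (-(A : ℤ)) A) ×ˢ (Icc (-(A : ℤ)) A)).filter (fun x => Nondeg x.1 x.2), ?_, ?_, ?_⟩
    · have h1 : (((Icc (-(A : ℤ)) A) ×ˢ (Icc (-(A : ℤ)) A)).filter (fun x => Nondeg x.1 x.2)).card ≤
          (2 * A + 1) * (2 * A + 1) := by
        refine (card_filter_le _ _).trans ?_
        rw [card_product, Int.card_Icc]
        have : ((A : ℤ) + 1 - -(A : ℤ)).toNat = 2 * A + 1 := by omega
        rw [this]
      calc _ ≤ (((2 * A + 1) * (2 * A + 1) : ℕ) : ℝ) := by exact_mod_cast h1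
        _ = (2 * A + 1) * (2 * A + 1) := by push_cast; ring
        _ ≤ (3 * (X : ℝ) ^ c) * (3 * (X : ℝ) ^ c) := by
            apply mul_le_mul <;> first | positivity | linarith
        _ = 9 * ((X : ℝ) ^ c * (X : ℝ) ^ c) := by ring
        _ = 9 * (X : ℝ) ^ (2 * c) := by
            rw [← Real.rpow_add hX0]
            congr 2
            ring
    · intro x hx
      rw [mem_filter, mem_product, mem_Icc, mem_Icc] at hx
      obtain ⟨⟨⟨a1, a2⟩, a3, a4⟩, a5⟩ := hx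
      have : (A : ℤ) ≤ X := by exact_mod_cast hAX
      exact ⟨abs_le.2 ⟨by linarith, by linarith⟩, abs_le.2 ⟨by linarith, by linarith⟩, a5⟩
    · rintro p hp w ⟨hpp, P, Q, hP, hQ, hnd, hw⟩
      have key : ∀ a : ℤ, (|a| : ℝ) ≤ (p : ℝ) ^ c → a ∈ Icc (-(A : ℤ)) A := by
        intro a ha
        rw [mem_Icc, ← abs_le]
        have h1 : ((a.natAbs : ℕ) : ℝ) ≤ (X : ℝ) ^ c := by
          rw [Nat.cast_natAbs]
          push_cast
          exact ha.trans (Real.rpow_le_rpow (Nat.cast_nonneg _) (by exact_mod_cast hp) hc0)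
        have h2 : a.natAbs ≤ A := by
          rw [hA]
          exact Nat.le_floor h1
        rw [Int.abs_eq_natAbs]
        exact_mod_cast h2
      refine ⟨(P, Q), ?_, hw.2.1⟩
      rw [mem_filter, mem_product]
      exact ⟨⟨key P hP, key Q hQ⟩, hnd⟩

theorem keeps_unitRanks {c : ℝ} (hc0 : 0 ≤ c) (hc : c < 1) : Keeps (UnitRanks c) := by
  refine keeps_of (κ := c) (C₀ := 6) hc (by norm_num) ?_ ?_
  · rintro p w ⟨hp, P, Q, hP, hQ, hnd, hw⟩
    refine ⟨hp, hw.1, rank_dvd hp ?_ hw⟩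
    intro hd
    have h1 : (p : ℤ) ∣ 1 := by
      rcases hQ with h | h
      · rwa [h] at hd
      · rw [h] at hd
        exact (dvd_neg.1 hd)
    have h2 := Int.le_of_dvd one_pos h1
    have h3 := hp.two_le
    omega
  · intro X hX
    have hX1 : (1 : ℝ) ≤ X := by exact_mod_cast hX
    have hX0 : (0 : ℝ) < X := by linarith
    obtain ⟨A, hA⟩ : ∃ A : ℕ, A = ⌊(X : ℝ) ^ c⌋₊ := ⟨_, rfl⟩
    have hXc : 1 ≤ (X : ℝ) ^ c := Real.one_le_rpow hX1 hc0
    have hAle : (A : ℝ) ≤ (X : ℝ) ^ c := by rw [hA]; exact Nat.floor_le (by linarith)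
    have hAX : A ≤ X := by
      have h1 : (A : ℝ) ≤ X := hAle.trans (by
        calc (X : ℝ) ^ c ≤ (X : ℝ) ^ (1 : ℝ) := Real.rpow_le_rpow_of_exponent_le hX1 (by linarith)
          _ = X := Real.rpow_one _)
      exact_mod_cast h1
    refine ⟨((Icc (-(A : ℤ)) A) ×ˢ ({1, -1} : Finset ℤ)).filter (fun x => Nondeg x.1 x.2), ?_, ?_, ?_⟩
    · have h1 : (((Icc (-(A : ℤ)) A) ×ˢ ({1, -1} : Finset ℤ)).filter (fun x => Nondeg x.1 x.2)).card ≤
          (2 * A + 1) * 2 := by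
        refine (card_filter_le _ _).trans ?_
        rw [card_product, Int.card_Icc]
        have : ((A : ℤ) + 1 - -(A : ℤ)).toNat = 2 * A + 1 := by omega
        rw [this]
        exact Nat.mul_le_mul_left _ (by decide)
      calc _ ≤ (((2 * A + 1) * 2 : ℕ) : ℝ) := by exact_mod_cast h1
        _ = (2 * A + 1) * 2 := by push_cast; ring
        _ ≤ 6 * (X : ℝ) ^ c := by linarith
    · intro x hx
      rw [mem_filter, mem_product, mem_Icc, mem_insert, mem_singleton] at hx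
      obtain ⟨⟨⟨a1, a2⟩, a3⟩, a5⟩ := hx
      have : (A : ℤ) ≤ X := by exact_mod_cast hAX
      refine ⟨abs_le.2 ⟨by linarith, by linarith⟩, ?_, a5⟩
      have hX' : (1 : ℤ) ≤ X := by exact_mod_cast hX
      rcases a3 with h | h <;> rw [h] <;> simpa using hX'
    · rintro p hp w ⟨hpp, P, Q, hP, hQ, hnd, hw⟩
      refine ⟨(P, Q), ?_, hw.2.1⟩
      rw [mem_filter, mem_product]
      refine ⟨⟨?_, ?_⟩, hnd⟩
      · change P ∈ _
        rw [mem_Icc, ← abs_le]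
        have h1 : ((P.natAbs : ℕ) : ℝ) ≤ (X : ℝ) ^ c := by
          rw [Nat.cast_natAbs]
          push_cast
          exact hP.trans (Real.rpow_le_rpow (Nat.cast_nonneg _) (by exact_mod_cast hp) hc0)
        have h2 : P.natAbs ≤ A := by
          rw [hA]
          exact Nat.le_floor h1
        rw [Int.abs_eq_natAbs]
        exact_mod_cast h2
      · change Q ∈ _
        rw [mem_insert, mem_singleton]
        exact hQ

end Pool.Agent.Zk52.LRK
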