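import Pool.Agent.Zk52.LRK.Keep
import Pool.Agent.Zk8.LR.X

set_option autoImplicit false

/-! The orders modulo a prime of integral matrices of determinant one or minus one. -/

namespace Pool.Agent.Zk52.LRK

open Finset Classical Matrix
open Pool.Agent.N375.AV (LogThin logThin_mono absorb)
open Pool.Agent.Zk98.LD (Keeps pre Few Chain keeps_comp)
open Pool.Agent.Zk8.LR (U Nondeg IsRank rank_struct)

/-- if `p` is a prime, the orders modulo `p` of all integral `2 × 2` matrices `A` of determinant `1` or `-1`, of infinite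
order, with `|tr A| ≤ p ^ c`, which are not scalar modulo `p` -/
def MatrixOrders (c : ℝ) (p : ℕ) : Set ℕ :=
  {t | p.Prime ∧ ∃ A : Matrix (Fin 2) (Fin 2) ℤ, (A.det = 1 ∨ A.det = -1) ∧ (|A.trace| : ℝ) ≤ (p : ℝ) ^ c ∧
    (∀ n : ℕ, 1 ≤ n → A ^ n ≠ 1) ∧ (∀ s : ZMod p, A.map (Int.cast : ℤ → ZMod p) ≠ s • 1) ∧
    t = orderOf (A.map (Int.cast : ℤ → ZMod p))}

/-- the powers of a matrix through the Lucas sequence -/
lemma pow_eq {R : Type*} [CommRing R] (A : Matrix (Fin 2) (Fin 2) R) {P Q : ℤ} (hP : A.trace = P) (hQ : A.det = Q)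
    (n : ℕ) : A ^ (n + 1) = ((U P Q (n + 1) : ℤ) : R) • A - (Q * (U P Q n : ℤ) : R) • (1 : Matrix (Fin 2) (Fin 2) R) := by
  have hch : A * A = (P : R) • A - (Q : R) • (1 : Matrix (Fin 2) (Fin 2) R) := by
    rw [← hP, ← hQ, Matrix.trace_fin_two, Matrix.det_fin_two]
    ext i j
    fin_cases i <;> fin_cases j <;> simp [Matrix.mul_apply, Fin.sum_univ_two] <;> ring
  induction n with
  | zero =>
    have h1 : U P Q 1 = 1 := rfl
    have h0 : U P Q 0 = 0 := rfl
    rw [zero_add, pow_one, h1, h0]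
    simp
  | succ n ih =>
    have h2 : U P Q (n + 2) = P * U P Q (n + 1) - Q * U P Q n := rfl
    rw [pow_succ, ih, sub_mul, smul_mul_assoc, smul_mul_assoc, one_mul, hch, h2]
    push_cast
    module

lemma det_pow_sq {R : Type*} [CommRing R] {A : Matrix (Fin 2) (Fin 2) R} {s : R} {n : ℕ}
    (h : A ^ n = s • (1 : Matrix (Fin 2) (Fin 2) R)) : s ^ 2 = A.det ^ n := by
  have h1 := congrArg Matrix.det h
  rw [Matrix.det_pow, Matrix.det_smul, Matrix.det_one, Fintype.card_fin, mul_one] at h1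
  exact h1.symm

lemma nondeg_of {A : Matrix (Fin 2) (Fin 2) ℤ} (hd : A.det = 1 ∨ A.det = -1) (hA : ∀ n : ℕ, 1 ≤ n → A ^ n ≠ 1) :
    Nondeg A.trace A.det := by
  intro n hn h0
  obtain ⟨m, rfl⟩ : ∃ m, n = m + 1 := ⟨n - 1, by omega⟩
  have h1 := pow_eq A (P := A.trace) (Q := A.det) (by simp) (by simp) m
  rw [h0] at h1
  obtain ⟨s, hs⟩ : ∃ s : ℤ, s = -(A.det * U A.trace A.det m) := ⟨_, rfl⟩
  have h2 : A ^ (m + 1) = s • (1 : Matrix (Fin 2) (Fin 2) ℤ) := by
    rw [h1, hs]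
    simp
  have h3 := det_pow_sq h2
  have h4 : s ^ 2 = 1 := by
    have h5 : A.det ^ (m + 1) = 1 ∨ A.det ^ (m + 1) = -1 := by
      rcases hd with h | h
      · left
        rw [h, one_pow]
      · rw [h]
        exact neg_one_pow_eq_or ℤ (m + 1)
    rcases h5 with h5 | h5
    · rw [h3, h5]
    · exfalso
      have := sq_nonneg s
      rw [h3, h5] at this
      omega
  apply hA ((m + 1) * 2) (by omega)
  rw [pow_mul, h2, smul_pow, one_pow, h4, one_smul]

/-- the multiples `m`, `2 m`, `4 m` -/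
def Mult (m : ℕ) : Set ℕ := {t | t = m ∨ t = 2 * m ∨ t = 4 * m}

lemma few_mult : Few Mult 4 := by
  constructor
  · intro m hm w hw
    have hm1 : (1 : ℝ) ≤ m := by exact_mod_cast hm
    have hl := Real.log_nonneg hm1
    have h1 : (1 : ℝ) ≤ (1 + Real.log m) ^ 4 := one_le_pow₀ (by linarith)
    have h2 : (w : ℝ) ≤ 4 * m := by
      rcases hw with h | h | h
      · rw [h]; linarith
      · rw [h]; push_cast; linarith
      · rw [h]; push_cast; linarith
    calc (w : ℝ) ≤ 4 * m := h2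
      _ = 4 * m * 1 := by ring
      _ ≤ (4 : ℕ) * m * (1 + Real.log m) ^ 4 := by
        push_cast
        gcongr
  · intro N w hN M hM
    have hN1 : (1 : ℝ) ≤ N := by exact_mod_cast hN
    have hl := Real.log_nonneg hN1
    have h1 : (1 : ℝ) ≤ (1 + Real.log N) ^ 4 := one_le_pow₀ (by linarith)
    have hsub : M ⊆ {w, w / 2, w / 4} := by
      intro m hm
      rw [mem_insert, mem_insert, mem_singleton]
      rcases (hM m hm).2.2 with h | h | h
      · left; exact h.symm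
      · right; left; omega
      · right; right; omega
    have h2 : M.card ≤ 3 := (card_le_card hsub).trans (card_le_three)
    have h3 : (M.card : ℝ) ≤ 3 := by exact_mod_cast h2
    push_cast
    nlinarith

lemma few_id : Few (fun m => {m}) 1 := by
  constructor
  · intro m hm w hw
    have hm1 : (1 : ℝ) ≤ m := by exact_mod_cast hm
    have hl := Real.log_nonneg hm1
    rw [Set.mem_singleton_iff] at hw
    rw [hw]
    push_cast
    nlinarith
  · intro N w hN M hM
    have hN1 : (1 : ℝ) ≤ N := by exact_mod_cast hN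
    have hl := Real.log_nonneg hN1
    have hsub : M ⊆ {w} := by
      intro m hm
      rw [mem_singleton]
      have := (hM m hm).2.2
      rw [Set.mem_singleton_iff] at this
      exact this.symm
    have h2 : M.card ≤ 1 := (card_le_card hsub).trans (by rw [card_singleton])
    have h3 : (M.card : ℝ) ≤ 1 := by exact_mod_cast h2
    push_cast
    nlinarith

theorem matrixOrders_sub {c : ℝ} {p t : ℕ} (ht : t ∈ MatrixOrders c p) : ∃ w ∈ UnitRanks c p, t ∈ Mult w := by
  obtain ⟨hp, A, hd, htr, hinf, hns, rfl⟩ := ht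
  have : Fact p.Prime := ⟨hp⟩
  obtain ⟨B, hB⟩ : ∃ B, B = A.map (Int.cast : ℤ → ZMod p) := ⟨_, rfl⟩
  rw [← hB]
  have hBm : B = (Int.castRingHom (ZMod p)).mapMatrix A := hB
  have htB : B.trace = (A.trace : ZMod p) := by
    rw [hB, Matrix.trace_fin_two, Matrix.trace_fin_two]
    simp
  have hdB : B.det = (A.det : ZMod p) := by
    rw [hB, Matrix.det_fin_two, Matrix.det_fin_two]
    simp
  have hnd := nondeg_of hd hinf
  have hQ : ¬ (p : ℤ) ∣ A.det := by
    intro h
    have h1 : (p : ℤ) ∣ 1 := by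
      rcases hd with h' | h'
      · rwa [h'] at h
      · rw [h'] at h
        exact dvd_neg.1 h
    have h2 := Int.le_of_dvd one_pos h1
    have h3 := hp.two_le
    omega
  -- `B ^ n = 1` implies `p ∣ U_n`
  have key1 : ∀ n : ℕ, 1 ≤ n → B ^ n = 1 → (p : ℤ) ∣ U A.trace A.det n := by
    intro n hn h1
    obtain ⟨m, rfl⟩ : ∃ m, n = m + 1 := ⟨n - 1, by omega⟩
    rw [pow_eq B htB hdB m] at h1
    rw [← ZMod.intCast_zmod_eq_zero_iff_dvd]
    by_contra hne
    obtain ⟨u, hu⟩ : ∃ u : ZMod p, u = ((U A.trace A.det (m + 1) : ℤ) : ZMod p) := ⟨_, rfl⟩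
    obtain ⟨v, hv⟩ : ∃ v : ZMod p, v = ((A.det : ZMod p) * ((U A.trace A.det m : ℤ) : ZMod p)) := ⟨_, rfl⟩
    rw [← hu, ← hv] at h1
    rw [← hu] at hne
    apply hns (u⁻¹ * (1 + v))
    rw [← hB]
    have h2 : u • B = (1 + v) • (1 : Matrix (Fin 2) (Fin 2) (ZMod p)) := by
      rw [sub_eq_iff_eq_add] at h1
      rw [h1, add_smul, one_smul]
    rw [mul_smul, ← h2, smul_smul, inv_mul_cancel₀ hne, one_smul]
  -- `B ^ (4 n) = 1` if `p ∣ U_n`
  have key2 : ∀ n : ℕ, 1 ≤ n → (p : ℤ) ∣ U A.trace A.det n → B ^ (n * 4) = 1 := by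
    intro n hn h1
    obtain ⟨m, rfl⟩ : ∃ m, n = m + 1 := ⟨n - 1, by omega⟩
    rw [← ZMod.intCast_zmod_eq_zero_iff_dvd] at h1
    have h2 := pow_eq B htB hdB m
    rw [h1, zero_smul, zero_sub, ← neg_smul] at h2
    have h3 := det_pow_sq h2
    obtain ⟨s, hs⟩ : ∃ s : ZMod p, s = -((A.det : ZMod p) * ((U A.trace A.det m : ℤ) : ZMod p)) := ⟨_, rfl⟩
    rw [← hs] at h2 h3
    have h4 : s ^ 4 = 1 := by
      have e : s ^ 4 = (s ^ 2) ^ 2 := by ring
      rw [e, h3, hdB]
      rcases hd with h' | h'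
      · rw [h']
        simp
      · rw [h']
        push_cast
        rw [← pow_mul, mul_comm, pow_mul]
        norm_num
    rw [pow_mul, h2, smul_pow, one_pow, h4, one_smul]
  obtain ⟨z, hz1, hz⟩ := rank_struct hp (P := A.trace) hQ
  have hfin : 0 < orderOf B := by
    have hunit : IsUnit B := by
      rw [Matrix.isUnit_iff_isUnit_det, hdB]
      rcases hd with h' | h' <;> rw [h'] <;> simp
    obtain ⟨b, rfl⟩ := hunit
    rw [orderOf_units]
    exact orderOf_pos b
  have hdz : z ∣ orderOf B := (hz _).1 (key1 _ hfin (pow_orderOf_eq_one B))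
  have hz0 : 1 ≤ z := Nat.pos_of_dvd_of_pos hdz hfin
  have hUz : (p : ℤ) ∣ U A.trace A.det z := (hz z).2 dvd_rfl
  have hd4 : orderOf B ∣ z * 4 := orderOf_dvd_of_pow_eq_one (key2 z hz0 hUz)
  refine ⟨z, ⟨hp, A.trace, A.det, htr, hd, hnd, hz0, hUz, ?_⟩, ?_⟩
  · intro n hn hlt hdn
    have := Nat.le_of_dvd (by omega) ((hz n).1 hdn)
    omega
  · obtain ⟨j, hj⟩ := hdz
    rw [hj] at hd4
    have hj4 : j ∣ 4 := Nat.dvd_of_mul_dvd_mul_left hz0 hd4
    have hjle := Nat.le_of_dvd (by norm_num) hj4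
    rw [hj]
    interval_cases j
    · omega
    · left; omega
    · right; left; ring
    · omega
    · right; right; ring

theorem keeps_matrixOrders {c : ℝ} (hc0 : 0 ≤ c) (hc : c < 1) : Keeps (MatrixOrders c) := by
  intro W hW
  refine logThin_mono ?_ (keeps_comp few_mult.keeps (keeps_unitRanks hc0 hc) W hW)
  rintro p ⟨t, ht, htW⟩
  obtain ⟨w, hw, h⟩ := matrixOrders_sub ht
  exact ⟨t, ⟨w, hw, h⟩, htW⟩

/-- the matrix of the Fibonacci numbers -/
theorem fib_mem {p : ℕ} (hp : p.Prime) :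
    orderOf ((!![1, 1; 1, 0] : Matrix (Fin 2) (Fin 2) ℤ).map (Int.cast : ℤ → ZMod p)) ∈ MatrixOrders 0 p := by
  have : Fact p.Prime := ⟨hp⟩
  refine ⟨hp, !![1, 1; 1, 0], ?_, ?_, ?_, ?_, rfl⟩
  · right
    rw [Matrix.det_fin_two]
    simp
  · rw [Matrix.trace_fin_two]
    simp
  · intro n hn h
    obtain ⟨m, rfl⟩ : ∃ m, n = m + 1 := ⟨n - 1, by omega⟩
    have h1 := pow_eq (!![1, 1; 1, 0] : Matrix (Fin 2) (Fin 2) ℤ) (P := 1) (Q := -1)
      (by rw [Matrix.trace_fin_two]; simp) (by rw [Matrix.det_fin_two]; simp) m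
    rw [h] at h1
    have h2 := congrFun (congrFun h1 0) 1
    have e1 : (1 : Matrix (Fin 2) (Fin 2) ℤ) 0 1 = 0 := by simp
    have e2 : (!![1, 1; 1, 0] : Matrix (Fin 2) (Fin 2) ℤ) 0 1 = 1 := by simp
    rw [Matrix.sub_apply, Matrix.smul_apply, Matrix.smul_apply, e1, e2, smul_zero, sub_zero, smul_eq_mul, mul_one] at h2
    refine Pool.Agent.Zk8.LR.nondeg_fib (m + 1) (by omega) ?_
    rw [h2]
    simp
  · intro s h
    have h2 := congrFun (congrFun h 0) 1
    simp at h2

end Pool.Agent.Zk52.LRK
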